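import Pool.Agent.Lib.AG.Defs

/-! Root subgroups of a linear algebraic group and the category `𝒳(G)`. -/

namespace Pool.Agent.AG.Cat

open Function

section group

variable {K : Type} [Field K] {n : ℕ}

/-- The unipotent radical. -/
def radU (B : Subgroup (GL (Fin n) K)) : Subgroup (GL (Fin n) K) := sSup {N | NorU B N}

/-- The root subgroup: it is generated by the images of the polynomial homomorphisms `x` from the
additive group to `G` with `t x(c) t⁻¹ = x(α(t) c)`. -/
def rootSub (G T : Subgroup (GL (Fin n) K)) (α : T →* Kˣ) : Subgroup (GL (Fin n) K) :=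
  Subgroup.closure {g | ∃ x : K → GL (Fin n) K, (∀ c, x c ∈ G) ∧ (∀ c d, x (c + d) = x c * x d) ∧
    (∀ i j, ∃ q : Polynomial K, ∀ c, (x c).1 i j = q.eval c) ∧
    (∀ (t : T) c, t.1 * x c * t.1⁻¹ = x (α t * c)) ∧ ∃ c, g = x c}

/-- The positive roots determined by `B`. -/
def posRoots (G B T : Subgroup (GL (Fin n) K)) : Set (T →* Kˣ) :=
  {α | α ∈ roots G T ∧ rootSub G T α ≤ B}

/-- The subgroup generated by the root subgroups `U_α` with `α` and `w α` positive. -/
def Uw (G B T : Subgroup (GL (Fin n) K)) (w : GL (Fin n) K) : Subgroup (GL (Fin n) K) :=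
  ⨆ α ∈ {α | α ∈ posRoots G B T ∧ ∃ β ∈ posRoots G B T,
    ∀ s t : T, s.1 = w * t.1 * w⁻¹ → β s = α t}, rootSub G T α

end group

section modules

variable {k : Type*} [Field k] {M : Type*} [AddCommGroup M] [Module k M] {G : Type*} [Group G]

/-- The weight space `M_θ`. -/
def wtSpace (ρ : Representation k G M) (T : Subgroup G) (θ : T →* kˣ) : Submodule k M :=
  ⨅ t : T, Module.End.eigenspace (ρ t) (θ t : k)

/-- The set of weights `𝕏_T(M)`. -/
def wts (ρ : Representation k G M) (T : Subgroup G) : Set (T →* kˣ) := {θ | wtSpace ρ T θ ≠ ⊥}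

/-- The submodule `kU ξ`. -/
def kU (ρ : Representation k G M) (U : Subgroup G) (ξ : M) : Submodule k M :=
  Submodule.span k {v | ∃ u ∈ U, v = ρ u ξ}

/-- The subspace `W` is isomorphic as a `kU`-module to the permutation module
`k[U / H] = Ind_H^U tr`. -/
def IsInd (ρ : Representation k G M) (W : Submodule k M) (U H : Subgroup G) : Prop :=
  ∃ e : MonoidAlgebra k (U ⧸ H.subgroupOf U) →ₗ[k] M, Injective e ∧ LinearMap.range e = W ∧
    ∀ (u : U) v, e (Representation.ofMulAction k U (U ⧸ H.subgroupOf U) u v) = ρ u (e v)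

end modules

/-- The objects of the category `𝒳(G)`: the sum `M_T` of the weight spaces has a finite basis of
weight vectors `ξ i` with `M = ⨁ kU ξ i`, and `kU ξ i` is isomorphic as a `kU`-module to
`Ind_{U'_w}^U tr` for some `w`. -/
def InX {K : Type} [Field K] {n : ℕ} (G B T : Subgroup (GL (Fin n) K)) {k : Type*} [Field k]
    {M : Type*} [AddCommGroup M] [Module k M] (ρ : Representation k G M) : Prop :=
  ∃ (m : ℕ) (ξ : Fin m → M), LinearIndependent k ξ ∧
    Submodule.span k (Set.range ξ) = ⨆ θ, wtSpace ρ (T.subgroupOf G) θ ∧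
    (∀ i, ∃ θ, ξ i ∈ wtSpace ρ (T.subgroupOf G) θ) ∧
    DirectSum.IsInternal (fun i => kU ρ ((radU B).subgroupOf G) (ξ i)) ∧
    ∀ i, ∃ w ∈ G ⊓ Subgroup.normalizer (T : Set (GL (Fin n) K)),
      IsInd ρ (kU ρ ((radU B).subgroupOf G) (ξ i)) ((radU B).subgroupOf G)
        ((Uw G B T w).subgroupOf G)

end Pool.Agent.AG.Cat
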