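import Pool.Agent.P.MP_0b1ded_al.Bridge

namespace Pool.Agent.P.MP_0b1ded_al.Old

open Pool.Agent.P.MP_0b1ded_al

theorem result (p : ℕ) [Fact p.Prime] (K : Type) [Field K] [Algebra (ZMod p) K]
    [IsAlgClosure (ZMod p) K] (ι X Y : Type) [Finite ι] [AddCommGroup X] [AddCommGroup Y]
    [Module.Finite ℤ X] [Module.Finite ℤ Y] (P : RootDatum ι X Y) [P.IsReduced] (b : P.Base)
    (G : Type*) [Group G] (D : Pin K G ι X) (hD : D.IsRed p b) (k : Type*) [Field k] [CharZero k]
    (M N L : Type*) [AddCommGroup M] [Module k M] [AddCommGroup N] [Module k N] [AddCommGroup L]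
    [Module k L] (ρ : Representation k G M) (σ : Representation k G N)
    (μ : Representation k G L) (hM : D.InX b ρ) (hN : D.InX b σ) (hL : D.InX b μ)
    (hd : D.wts μ ∩ D.wts (ρ.tprod σ) = ∅) : NoHom (ρ.tprod σ) μ := by
  have : IsAlgClosed K := IsAlgClosure.isAlgClosed (ZMod p)
  have : CharP K p := charP_of_injective_algebraMap (algebraMap (ZMod p) K).injective p
  obtain ⟨R, hτ, hx⟩ := Pin.exists_red hD
  intro f
  rw [← Set.disjoint_iff_inter_eq_empty, Pin.wts_eq hτ, Pin.wts_eq hτ] at hd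
  exact Red.main (hM.red hτ hx) (hN.red hτ hx) (hL.red hτ hx) hd f.toLinearMap
    fun g v => LinearMap.congr_fun (f.isIntertwining' g) v

end Pool.Agent.P.MP_0b1ded_al.Old
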