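import Pool.Agent.P.MP_0b1ded_al.Br.Red
import Pool.Agent.P.MP_0b1ded_al.Br.Old

/-! Vanishing of homomorphisms for linear algebraic groups. -/

namespace Pool.Agent.AG.Cat

open Pool.Agent.P.MP_0b1ded_al

private theorem pow_fix (p : ℕ) [Fact p.Prime] {K : Type} [Field K] [Algebra (ZMod p) K]
    [Algebra.IsAlgebraic (ZMod p) K] (c : K) : ∃ m, 0 < m ∧ c ^ p ^ m = c := by
  let L := IntermediateField.adjoin (ZMod p) {c}
  have : FiniteDimensional (ZMod p) L :=
    IntermediateField.adjoin.finiteDimensional (Algebra.IsAlgebraic.isAlgebraic c).isIntegral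
  have : Finite L := Module.finite_of_finite (ZMod p)
  let := Fintype.ofFinite L
  have h1 := FiniteField.pow_card (⟨c, IntermediateField.mem_adjoin_simple_self _ c⟩ : L)
  rw [Module.card_eq_pow_finrank (K := ZMod p), ZMod.card] at h1
  exact ⟨_, Module.finrank_pos, congrArg Subtype.val h1⟩

section

variable {K : Type} [Field K] {G : Type*} [Group G] {ι X : Type} [AddCommGroup X]
  (E : Pin K G ι X) {k : Type*} [Field k] {M : Type*} [AddCommGroup M] [Module k M]
  (ρ : Representation k G M)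

private theorem wt_eq (θ : E.τ.range →* kˣ) :
    wtSpace ρ E.τ.range θ = E.wtSpace ρ (θ.comp E.τ.rangeRestrict) :=
  (E.τ.rangeRestrict_surjective.iInf_comp
    fun t : E.τ.range => Module.End.eigenspace (ρ t) (θ t : k)).symm

private theorem wt_surj (h : Function.Injective E.τ) (θ : P.MP_0b1ded_al.Tor K X →* kˣ) :
    ∃ θ' : E.τ.range →* kˣ, θ'.comp E.τ.rangeRestrict = θ :=
  ⟨θ.comp (MonoidHom.ofInjective h).symm.toMonoidHom, MonoidHom.ext fun t =>
    congrArg θ ((MonoidHom.ofInjective h).symm_apply_apply t)⟩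

end

private theorem inX_of {K : Type} [Field K] {n : ℕ} {G B T : Subgroup (GL (Fin n) K)} {ι X Y : Type}
    [AddCommGroup X] [AddCommGroup Y] {P : RootDatum ι X Y} {b : P.Base} {E : Pin K G ι X}
    (hi : Function.Injective E.τ) (h1 : E.τ.range = T.subgroupOf G)
    (h2 : E.U b = (radU B).subgroupOf G)
    (h3 : ∀ w ∈ G ⊓ Subgroup.normalizer (T : Set (GL (Fin n) K)), ∃ w' : Wey P,
      E.Uw b w' = (Uw G B T w).subgroupOf G) {k : Type*} [Field k] {M : Type*} [AddCommGroup M]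
    [Module k M] (ρ : Representation k G M) (hM : InX G B T ρ) : E.InX b ρ := by
  obtain ⟨m, ξ, a1, a2, a3, a4, a5⟩ := hM
  rw [← h1] at a2 a3
  rw [← h2] at a4 a5
  refine ⟨m, ξ, a1, a2.trans (le_antisymm (iSup_le fun θ => ?_) (iSup_le fun θ => ?_)),
    fun i => ?_, a4, fun i => ?_⟩
  · rw [wt_eq]
    exact le_iSup _ _
  · obtain ⟨θ, rfl⟩ := wt_surj E hi θ
    rw [← wt_eq]
    exact le_iSup _ _
  · obtain ⟨θ, h⟩ := a3 i
    exact ⟨_, wt_eq E ρ θ ▸ h⟩
  · obtain ⟨w, hw, h⟩ := a5 i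
    obtain ⟨w', e⟩ := h3 w hw
    exact ⟨w', by rw [e]; exact h⟩

theorem hom_main (p : ℕ) [Fact p.Prime] (K : Type) [Field K] [Algebra (ZMod p) K]
    [IsAlgClosure (ZMod p) K] {n : ℕ} (G B T : Subgroup (GL (Fin n) K)) (hG : Red G)
    (hB : Borel G B) (hT : MaxTor G T) (hTB : T ≤ B) (k : Type*) [Field k] [CharZero k]
    (M N L : Type*) [AddCommGroup M] [Module k M] [AddCommGroup N] [Module k N] [AddCommGroup L]
    [Module k L] (ρ : Representation k G M) (σ : Representation k G N)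
    (μ : Representation k G L) (hM : InX G B T ρ) (hN : InX G B T σ) (hL : InX G B T μ)
    (hd : wts μ (T.subgroupOf G) ∩ wts (ρ.tprod σ) (T.subgroupOf G) = ∅)
    (f : (ρ.tprod σ).IntertwiningMap μ) : f.toLinearMap = 0 := by
  have : IsAlgClosed K := IsAlgClosure.isAlgClosed (ZMod p)
  have : CharP K p := charP_of_injective_algebraMap (algebraMap (ZMod p) K).injective p
  have hp : ringChar K = p := ringChar.eq K p
  have : Fact (ringChar K).Prime := ⟨hp ▸ Fact.out⟩
  obtain ⟨ι, _, r, P, _, b, E, hE, h1, h2, h3⟩ := exists_pin hG hB hT hTB (hp ▸ pow_fix p)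
  rw [hp] at hE
  have hi : Function.Injective E.τ := hE.1.choose_spec.2.τ_inj
  refine Old.result p K ι _ _ P b G E hE k M N L ρ σ μ (inX_of hi h1 h2 h3 ρ hM)
    (inX_of hi h1 h2 h3 σ hN) (inX_of hi h1 h2 h3 μ hL) ?_ f
  rw [← h1] at hd
  refine Set.eq_empty_of_forall_notMem fun θ hθ => ?_
  obtain ⟨θ, rfl⟩ := wt_surj E hi θ
  refine Set.eq_empty_iff_forall_notMem.1 hd θ ⟨?_, ?_⟩
  · exact (wt_eq E μ θ).trans_ne hθ.1
  · exact (wt_eq E (ρ.tprod σ) θ).trans_ne hθ.2

end Pool.Agent.AG.Cat
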