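import Pool.Agent.P.MP_0b1ded_al.Defs
import Pool.Agent.P.MP_0b1ded_al.Br.Defs
import Pool.Agent.Lib.AG.Weyl
import Pool.Agent.Lib.AG.LieG

/-! The pinning of a reductive group. -/

namespace Pool.Agent.AG.Cat

open Set Matrix Pool.Agent.P.MP_0b1ded_al

variable {K : Type} [Field K] [IsAlgClosed K] [Fact (ringChar K).Prime] {n : ℕ}
  {G B T : Subgroup (Gl n K)} {τ : TD T} (D : Pn G τ)

omit [IsAlgClosed K] [Fact (ringChar K).Prime] in
private theorem eval_poly (N : ℕ) (A : ℕ → Mt n K) (a b : Fin n) (c : K) :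
    (∑ j ∈ Finset.range N, c ^ j • A j) a b =
      (∑ j ∈ Finset.range N, Polynomial.monomial j (A j a b)).eval c := by
  simp only [Matrix.sum_apply, Matrix.smul_apply, smul_eq_mul, Polynomial.eval_finsetSum,
    Polynomial.eval_monomial, mul_comm]

omit [Fact (ringChar K).Prime] in
private theorem coeff_eq {N : ℕ} {A A' : ℕ → Mt n K}
    (h : ∀ c : K, ∑ j ∈ Finset.range N, c ^ j • A j = ∑ j ∈ Finset.range N, c ^ j • A' j)
    {j : ℕ} (hj : j < N) : A j = A' j := by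
  ext a b
  have := congrArg (Polynomial.coeff · j) (Polynomial.funext fun c =>
    (eval_poly N A a b c).symm.trans ((congrFun (congrFun (h c) a) b).trans (eval_poly N A' a b c)))
  simpa [Polynomial.coeff_monomial, hj] using this

theorem rootSub_eq (i : D.ι) : rootSub G T (τ.χ (D.P.root i)) = τ.GX G (ray (D.P.root i)) := by
  refine le_antisymm ((Subgroup.closure_le _).2 ?_) fun g hg => ?_
  · rintro _ ⟨x, h1, h2, h3, h4, c, rfl⟩
    choose q hq using h3
    let N := (Finset.univ.sup fun a : Fin n × Fin n => (q a.1 a.2).natDegree) + 1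
    let E : ℕ → Mt n K := fun j => Matrix.of fun a b => (q a b).coeff j
    have hx : ∀ c, (x c).1 = ∑ j ∈ Finset.range N, c ^ j • E j := fun c => by
      ext a b
      rw [hq, Polynomial.eval_eq_sum_range' (Nat.lt_succ_of_le (Finset.le_sup
        (f := fun a : Fin n × Fin n => (q a.1 a.2).natDegree) (Finset.mem_univ (a, b))))]
      simp only [Matrix.sum_apply, Matrix.smul_apply, smul_eq_mul, E, of_apply, mul_comm]
      rfl
    have hE : ∀ j < N, E j ∈ τ.w Ad ((j : ℤ) • D.P.root i) := fun j hj t => by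
      refine coeff_eq (A := fun j => Ad t.1 (E j))
        (A' := fun j : ℕ => (τ.χ ((j : ℤ) • D.P.root i) t : K) • E j) (fun c => ?_) hj
      have := congrArg Units.val (h4 t c)
      rw [Units.val_mul, Units.val_mul, ← Ad_apply, hx, hx, map_sum] at this
      simp only [map_smul] at this
      rw [this]
      refine Finset.sum_congr rfl fun j _ => ?_
      rw [τ.χ_zsmul, smul_smul, mul_pow, mul_comm, MonoidHom.zpow_apply, zpow_natCast,
        Units.val_pow_eq_pow_val]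
    have h0 : E 0 = 1 := by
      have := h2 0 0
      rw [add_zero, left_eq_mul] at this
      have h5 := hx 0
      rw [this, Finset.sum_range_succ'] at h5
      simpa using h5.symm
    rw [SetLike.mem_coe, τ.mem_GX (sga_ray _), hx, Finset.sum_range_succ', h0, pow_zero, one_smul,
      add_sub_cancel_right, τ.M_eq]
    refine ⟨h1 c, sum_mem fun j hj => Submodule.smul_mem _ _ ?_⟩
    exact Submodule.mem_iSup_of_mem _ (Submodule.mem_iSup_of_mem
      ⟨1, j + 1, one_pos, j.succ_pos, by rw [one_smul, natCast_zsmul]⟩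
      (hE (j + 1) (Nat.succ_lt_succ (Finset.mem_range.1 hj))))
  · obtain ⟨N, E, -, -, -, -, hE⟩ := (D.rh i).poly
    exact Subgroup.subset_closure ⟨D.x i, D.x_mem i, (D.rh i).add,
      fun a b => ⟨_, fun c => by rw [hE, eval_poly]⟩, (D.rh i).conj, ((D.rh i).mem_iff g).1 hg⟩

theorem radU_eq (hT : T ≤ G) (hG : CC G) (y : τ.X) : radU (T ⊔ τ.U G y) = τ.U G y := by
  have hn : Nm T (τ.U G y) := τ.nm_GX (sga_pos y) (Nm.of_le hT)
  have h0 : (0 : τ.X) ∉ {x : τ.X | 0 < x ⬝ᵥ y} := by simp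
  refine le_antisymm (sSup_le fun N hN g hg => ?_) (le_sSup ⟨le_sup_right,
    τ.cc_U hG.closed (Nm.of_le hT) y, fun g hg x hx => ?_, fun x => τ.unip_GX (sga_pos y) h0⟩)
  · obtain ⟨t, ht, u, hu, rfl⟩ := hn.mem_sup.1 (hN.1 hg)
    have h1 : ∀ m : ℕ, (t ^ m)⁻¹ * (t * u) ^ m ∈ τ.U G y := fun m => by
      induction m with
      | zero => simpa using (τ.U G y).one_mem
      | succ m ih =>
        have := mul_mem (hn _ (T.inv_mem ht) _ ih) hu
        rwa [show t⁻¹ * ((t ^ m)⁻¹ * (t * u) ^ m) * t⁻¹⁻¹ * u =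
          (t ^ (m + 1))⁻¹ * (t * u) ^ (m + 1) by rw [pow_succ, pow_succ]; group] at this
    have h2 := h1 (ringChar K ^ n)
    rw [unip_iff.1 (hN.2.2.2 _ hg), mul_one, inv_mem_iff] at h2
    have s0 : SGa ({0} : Set τ.X) := by
      rintro _ rfl _ rfl
      exact add_zero _
    have h3 := τ.GX_inf_eq_bot s0 (sga_pos y) (disjoint_singleton_left.2 h0)
      (τ.le_GX s0 rfl hT (T.pow_mem ht (ringChar K ^ n))) h2
    rwa [(τ.dg.ss ht).eq_one (unip_of_pow h3), one_mul]
  · obtain ⟨t, ht, u, hu, rfl⟩ := hn.mem_sup.1 hg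
    have := hn t ht _ (mul_mem (mul_mem hu hx) (inv_mem hu))
    rwa [show t * (u * x * u⁻¹) * t⁻¹ = t * u * x * (t * u)⁻¹ by group] at this

theorem mem_posRoots (hG : AG.Red G) (hT : MaxTor G T) {y : τ.X} (hy : ∀ i, D.P.root i ⬝ᵥ y ≠ 0)
    {γ : T →* Kˣ} : γ ∈ posRoots G (T ⊔ τ.U G y) T ↔
      ∃ i, 0 < D.P.root i ⬝ᵥ y ∧ γ = τ.χ (D.P.root i) := by
  constructor
  · rintro ⟨h1, h2⟩
    obtain ⟨x, hx, rfl⟩ := τ.mem_roots_iff.1 h1
    rw [← D.range_root] at hx
    obtain ⟨i, rfl⟩ := hx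
    refine ⟨i, (hy i).lt_or_gt.resolve_left fun h => ?_, rfl⟩
    rw [rootSub_eq] at h2
    have h3 : T ⊔ τ.U G y ≤ τ.GX G {x | 0 ≤ x ⬝ᵥ y} :=
      sup_le (τ.le_GX (sga_nonneg y) (by simp) hT.1.1) (τ.GX_mono le_rfl fun x hx =>
        le_of_lt (b := x ⬝ᵥ y) hx)
    have h4 := τ.GX_inf_eq_bot (sga_nonneg y) (sga_pos (-y))
      (disjoint_left.2 fun x h h' => by
        rw [mem_ofPred_eq] at h h'
        rw [dotProduct_neg] at h'
        omega)
      (h3 (h2 (((D.rh i).mem_iff _).2 ⟨1, rfl⟩)))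
      (D.x_mem_GX (sga_pos (-y)) (by rw [mem_ofPred_eq, dotProduct_neg]; omega) 1)
    exact one_ne_zero ((D.rh i).inj (h4.trans (D.rh i).zero.symm))
  · rintro ⟨i, hi, rfl⟩
    refine ⟨τ.mem_roots_iff.2 ⟨_, D.range_root ▸ ⟨i, rfl⟩, rfl⟩, ?_⟩
    rw [rootSub_eq]
    exact (τ.GX_mono le_rfl fun x hx => ray_dot_pos hx hi).trans le_sup_right

/-- The torus, the root homomorphisms and the rank one homomorphisms with values in `G`. -/
theorem exists_data (hT : T ≤ G) : ∃ (t : P.MP_0b1ded_al.Tor K τ.X →* G) (x : D.ι → K → G)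
    (φ : D.ι → SpecialLinearGroup (Fin 2) K →* G), Function.Injective t ∧
      t.range = T.subgroupOf G ∧
      (∀ (s : P.MP_0b1ded_al.Tor K τ.X) (h : (t s).1 ∈ T) v, τ.χ v ⟨_, h⟩ = s.val v) ∧
      (∀ i c, (x i c).1 = D.x i c) ∧ ∀ i g, (φ i g).1 = D.φ i g := by
  choose t₀ ht using τ.surj
  let t₁ : P.MP_0b1ded_al.Tor K τ.X →* T := MonoidHom.mk' t₀ fun s s' => τ.ext_pt fun x => by
    rw [map_mul, ht, ht, ht]
    rfl
  refine ⟨(Subgroup.inclusion hT).comp t₁, fun i c => ⟨_, D.x_mem i c⟩,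
    fun i => (D.φ i).codRestrict G (D.φ_mem i), fun s s' h => ?_, ?_, fun s _ v => ht s v,
    fun _ _ => rfl, fun _ _ => rfl⟩
  · have e : t₀ s = t₀ s' := Subgroup.inclusion_injective hT h
    exact MonoidHom.ext fun v => (ht s v.toAdd).symm.trans (e ▸ ht s' v.toAdd)
  · refine le_antisymm (by rintro _ ⟨s, rfl⟩; exact (t₁ s).2) fun g hg => ?_
    let s : Multiplicative τ.X →* Kˣ := MonoidHom.mk' (fun v => τ.χ v.toAdd ⟨g.1, hg⟩)
      fun v v' => by rw [toAdd_mul, τ.χ_add, MonoidHom.mul_apply]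
    have e : t₀ s = ⟨g.1, hg⟩ := τ.ext_pt fun x => ht s x
    exact ⟨s, Subtype.ext (congrArg Subtype.val e :)⟩

omit [IsAlgClosed K] [Fact (ringChar K).Prime] in
private theorem exists_level {p : ℕ} (hK : ∀ c : K, ∃ m, 0 < m ∧ c ^ p ^ m = c) {C : Set K}
    (hC : C.Finite) : ∃ m, 0 < m ∧ ∀ c ∈ C, c ^ p ^ m = c := by
  have it : ∀ (c : K) m r, c ^ p ^ m = c → c ^ p ^ (m * r) = c := fun c m r h => by
    induction r with
    | zero => simp
    | succ r ih => rw [mul_add, mul_one, pow_add, pow_mul c, ih, h]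
  induction C, hC using Set.Finite.induction_on with
  | empty => exact ⟨1, one_pos, by simp⟩
  | @insert a _ _ _ ih =>
    obtain ⟨m, hm, h⟩ := ih
    obtain ⟨m', hm', h'⟩ := hK a
    refine ⟨m * m', mul_pos hm hm', ?_⟩
    rintro c (rfl | hc)
    · rw [mul_comm]
      exact it _ _ _ h'
    · exact it _ _ _ (h c hc)

theorem exists_frobenius (hG : AG.Red G) (hT : MaxTor G T)
    (hK : ∀ c : K, ∃ m, 0 < m ∧ c ^ ringChar K ^ m = c) :
    ∃ (m : ℕ) (F : G →* G), 0 < m ∧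
      (∀ i c (h h'), F ⟨D.x i c, h⟩ = ⟨D.x i (c ^ ringChar K ^ m), h'⟩) ∧
      ∀ g : G, g.1 ∈ T → F g = g ^ ringChar K ^ m := by
  obtain ⟨Q, hQ⟩ := τ.dg
  choose N E hN using fun i => (D.rh i).poly
  obtain ⟨m, hm, h⟩ := exists_level hK (C := range (fun a : Fin n × Fin n => Q.1 a.1 a.2) ∪
    range fun a : (i : D.ι) × Fin (N i) × Fin n × Fin n => E a.1 a.2.1 a.2.2.1 a.2.2.2)
    ((finite_range _).union (finite_range _))
  let Φ := iterateFrobenius K (ringChar K) m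
  let F : Gl n K →* Gl n K := Units.map Φ.mapMatrix.toMonoidHom
  have hF : ∀ g : Gl n K, ∀ a b, (F g).1 a b = g.1 a b ^ ringChar K ^ m := fun _ _ _ => rfl
  have h1 : F Q = Q := Units.ext (Matrix.ext fun a b => h _ (Or.inl ⟨(a, b), rfl⟩))
  have h2 : ∀ t ∈ T, F t = t ^ ringChar K ^ m := fun t ht => by
    have e : F (Q * t * Q⁻¹) = (Q * t * Q⁻¹) ^ ringChar K ^ m := Units.ext <| by
      rw [Units.val_pow_eq_pow_val, ← (hQ t ht).diagonal_diag, diagonal_pow]
      ext a b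
      rw [hF, ← (hQ t ht).diagonal_diag]
      by_cases hab : a = b
      · subst hab
        simp
      · rw [diagonal_apply_ne _ hab, diagonal_apply_ne _ hab, zero_pow]
        exact pow_ne_zero _ (Fact.out : (ringChar K).Prime).ne_zero
    rw [map_mul, map_mul, map_inv, h1, conj_pow] at e
    exact mul_left_cancel (mul_right_cancel e)
  have h3 : ∀ i c, F (D.x i c) = D.x i (c ^ ringChar K ^ m) := fun i c => Units.ext <| by
    change Φ.mapMatrix (D.x i c).1 = _
    rw [(hN i).2.2.2.2, (hN i).2.2.2.2, map_sum]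
    refine Finset.sum_congr rfl fun j hj => Matrix.ext fun a b => ?_
    change Φ (c ^ j * E i j a b) = (c ^ ringChar K ^ m) ^ j * E i j a b
    rw [map_mul, map_pow]
    exact congrArg _ (h _ (Or.inr ⟨⟨i, ⟨j, Finset.mem_range.1 hj⟩, a, b⟩, rfl⟩))
  have h4 : G ≤ G.comap F := D.le_of_gen hG hT
    (fun t ht => by rw [Subgroup.mem_comap, h2 t ht]; exact G.pow_mem (hT.1.1 ht) _)
    fun i c => by rw [Subgroup.mem_comap, h3]; exact D.x_mem _ _
  exact ⟨m, (F.comp G.subtype).codRestrict G fun g => h4 g.2, hm,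
    fun i c _ _ => Subtype.ext (h3 i c), fun g hg => Subtype.ext (h2 _ hg)⟩

end Pool.Agent.AG.Cat
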