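import Pool.Agent.P.MP_0b1ded_al.Br.Pin

/-! A reductive group satisfies the axioms of a pinned group. -/

namespace Pool.Agent.AG.Cat

open Set Matrix Pool.Agent.P.MP_0b1ded_al

variable {K : Type} [Field K] [IsAlgClosed K] [Fact (ringChar K).Prime] {n : ℕ}
  {G B T : Subgroup (Gl n K)}

omit [IsAlgClosed K] [Fact (ringChar K).Prime] in
private theorem cred_le {H : Subgroup (Gl n K)} {J : Subgroup G} (h : H ≤ J.map G.subtype) :
    H.subgroupOf G ≤ J := fun g hg => by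
  obtain ⟨g', hg', e⟩ := h (Subgroup.mem_subgroupOf.1 hg)
  rwa [← Subtype.ext (a1 := g') (a2 := g) e]

omit [IsAlgClosed K] [Fact (ringChar K).Prime] in
private theorem cred_x {ι : Type} {x : ι → K → G} {S : Set ι} {i : ι} (h : i ∈ S) (c : K) :
    x i c ∈ genU x S := Subgroup.subset_closure ⟨i, h, c, rfl⟩

omit [IsAlgClosed K] [Fact (ringChar K).Prime] in
private theorem cred_gen_le {ι : Type} {x : ι → K → G} {S : Set ι} {J : Subgroup G}
    (h : ∀ i ∈ S, ∀ c, x i c ∈ J) : genU x S ≤ J := by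
  refine (Subgroup.closure_le _).2 ?_
  rintro _ ⟨i, hi, c, rfl⟩
  exact h i hi c

section

variable {τ : TD T} (D : Pn G τ) {x : D.ι → K → G}

private theorem cred_gen (hG : AG.Red G) (hT : MaxTor G T) (hx : ∀ i c, (x i c).1 = D.x i c)
    {P : Set τ.X} (hP : SGa P) {y : τ.X} (hy : ∀ z ∈ P, 0 < z ⬝ᵥ y) {S : Set D.ι}
    (hS : ∀ i, i ∈ S ↔ D.P.root i ∈ P) : genU x S = (τ.GX G P).subgroupOf G := by
  refine le_antisymm (cred_gen_le fun i hi c => ?_) (cred_le ?_)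
  · rw [Subgroup.mem_subgroupOf, hx]
    exact D.x_mem_GX hP ((hS i).1 hi) c
  · exact D.GX_le hG hT hP hy fun i hi c => ⟨x i c, cred_x ((hS i).2 hi) c, hx i c⟩

omit [IsAlgClosed K] [Fact (ringChar K).Prime] in
private theorem cred_prod (hx : ∀ i c, (x i c).1 = D.x i c) (l : List D.ι) (c : D.ι → K) :
    ((l.map fun β => x β (c β)).prod : G).1 = (l.map fun β => D.x β (c β)).prod := by
  induction l with
  | nil => rfl
  | cons a l ih => rw [List.map_cons, List.prod_cons, List.map_cons, List.prod_cons,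
      Subgroup.coe_mul, ih, hx]

private theorem cred_weyl (hG : AG.Red G) (hT : MaxTor G T) {g : Gl n K} (hg : g ∈ G)
    (h : ∀ t ∈ T, g * t * g⁻¹ ∈ T) (h' : ∀ t ∈ T, g⁻¹ * t * g ∈ T) :
    ∃ (a a' : τ.X ≃+ τ.X) (w : Wey D.P), τ.Act g a a' ∧ (∀ v, a v = w.act v) ∧
      ∀ i, a (D.P.root i) = D.P.root (w.perm i) := by
  obtain ⟨a, a', ha⟩ := τ.exists_act h h'
  obtain ⟨w, hw⟩ := D.exists_weyl_of_act hG hT hg ha
  exact ⟨a, a', w, ha, hw, fun i => (hw _).trans (D.P.weylGroup_apply_root w i)⟩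

omit [IsAlgClosed K] [Fact (ringChar K).Prime] in
private theorem cred_rt (i : D.ι) : D.P.root i ∈ τ.Rt G := D.range_root ▸ mem_range_self i

private theorem cred_comm (hG : AG.Red G) (hT : MaxTor G T) (hx : ∀ i c, (x i c).1 = D.x i c)
    (β γ : D.ι) (c d : K) (h : D.P.root γ ≠ -D.P.root β) :
    x β c * x γ d * (x β c)⁻¹ * (x γ d)⁻¹ ∈ genU x
      {δ | ∃ i j : ℕ, 0 < i ∧ 0 < j ∧ D.P.root δ = i • D.P.root β + j • D.P.root γ} := by
  obtain ⟨y, h1, h2⟩ := exists_dot_pos₂ (cred_rt D β).1 (cred_rt D γ).1 fun hr =>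
    h (TD.Rt_ray hG hT (TD.neg_mem_Rt hG hT (cred_rt D β)) (cred_rt D γ) hr)
  have sg : ∀ α : τ.X, SGa {z | ∃ j : ℕ, 0 < j ∧ z = j • α} := by
    rintro α _ ⟨i, hi, rfl⟩ _ ⟨j, -, rfl⟩
    exact ⟨i + j, by omega, (add_nsmul α i j).symm⟩
  have sR : SGa {z | ∃ i j : ℕ, 0 < i ∧ 0 < j ∧ z = i • D.P.root β + j • D.P.root γ} := by
    rintro _ ⟨i, j, hi, hj, rfl⟩ _ ⟨i', j', -, -, rfl⟩
    exact ⟨i + i', j + j', by omega, by omega, by rw [add_nsmul, add_nsmul]; abel⟩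
  rw [cred_gen D hG hT hx sR (y := y) ?_ (S := {δ | ∃ i j : ℕ, 0 < i ∧ 0 < j ∧
    D.P.root δ = i • D.P.root β + j • D.P.root γ}) fun _ => Iff.rfl, Subgroup.mem_subgroupOf]
  · simp only [Subgroup.coe_mul, Subgroup.coe_inv, hx]
    refine τ.comm_mem_GX (sg (D.P.root β)) (sg (D.P.root γ)) sR ?_ ?_ ?_
      (D.x_mem_GX (sg _) ⟨1, one_pos, (one_nsmul _).symm⟩ c)
      (D.x_mem_GX (sg _) ⟨1, one_pos, (one_nsmul _).symm⟩ d)
    · rintro _ ⟨i, hi, rfl⟩ _ ⟨j, hj, rfl⟩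
      exact ⟨i, j, hi, hj, rfl⟩
    · rintro _ ⟨m, -, rfl⟩ _ ⟨i, j, hi, hj, rfl⟩
      exact ⟨m + i, j, by omega, hj, by rw [add_nsmul, add_assoc]⟩
    · rintro _ ⟨m, -, rfl⟩ _ ⟨i, j, hi, hj, rfl⟩
      exact ⟨i, m + j, hi, by omega, by rw [add_nsmul]; abel⟩
  · rintro _ ⟨i, j, hi, hj, rfl⟩
    rw [add_dotProduct, smul_dotProduct, smul_dotProduct]
    exact add_pos (nsmul_pos h1 hi.ne') (nsmul_pos h2 hj.ne')

private theorem cred_Uw (hG : AG.Red G) (hT : MaxTor G T) (hx : ∀ i c, (x i c).1 = D.x i c)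
    {y : τ.X} (hy : ∀ i, D.P.root i ⬝ᵥ y ≠ 0) {g : Gl n K} {a a' : τ.X ≃+ τ.X}
    (ha : τ.Act g a a') {s : D.ι → D.ι} (hs : ∀ i, a (D.P.root i) = D.P.root (s i)) :
    genU x {β | 0 < D.P.root β ⬝ᵥ y ∧ 0 < D.P.root (s β) ⬝ᵥ y} =
      (Uw G (T ⊔ τ.U G y) T g).subgroupOf G := by
  refine le_antisymm (cred_gen_le fun i hi c => ?_) (cred_le (iSup₂_le ?_))
  · rw [Subgroup.mem_subgroupOf, hx]
    refine (le_biSup (rootSub G T) (i := τ.χ (D.P.root i)) ?_) ?_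
    · refine ⟨(mem_posRoots D hG hT hy).2 ⟨i, hi.1, rfl⟩, _,
        (mem_posRoots D hG hT hy).2 ⟨s i, hi.2, rfl⟩, ?_⟩
      rintro ⟨_, hs'⟩ t rfl
      rw [← hs]
      exact ha.chi _ t
    · rw [rootSub_eq D]
      exact ((D.rh i).mem_iff _).2 ⟨c, rfl⟩
  · rintro α ⟨hα, β, hβ, h⟩
    obtain ⟨i, hi, rfl⟩ := (mem_posRoots D hG hT hy).1 hα
    obtain ⟨j, hj, rfl⟩ := (mem_posRoots D hG hT hy).1 hβ
    have e : D.P.root j = D.P.root (s i) := by
      rw [← hs]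
      refine τ.χ_inj (MonoidHom.ext fun u => ?_)
      have h1 : u.1 = g * (g⁻¹ * u.1 * g) * g⁻¹ := by group
      rw [h u ⟨_, ha.mem' u.1 u.2⟩ h1, ← ha.chi]
      exact congrArg _ (Subtype.ext h1.symm)
    rw [rootSub_eq D]
    intro u hu
    obtain ⟨c, rfl⟩ := ((D.rh i).mem_iff _).1 hu
    exact ⟨x i c, cred_x (S := {β | 0 < D.P.root β ⬝ᵥ y ∧ 0 < D.P.root (s β) ⬝ᵥ y})
      ⟨hi, e ▸ hj⟩ c, hx i c⟩

end

theorem exists_pin (hG : AG.Red G) (hB : Borel G B) (hT : MaxTor G T) (hTB : T ≤ B)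
    (hK : ∀ c : K, ∃ m, 0 < m ∧ c ^ ringChar K ^ m = c) :
    ∃ (ι : Type) (_ : Fintype ι) (r : ℕ) (P : RootDatum ι (Fin r → ℤ) (Fin r → ℤ))
      (_ : P.IsReduced) (b : P.Base) (E : Pin K G ι (Fin r → ℤ)), E.IsRed (ringChar K) b ∧
      E.τ.range = T.subgroupOf G ∧ E.U b = (radU B).subgroupOf G ∧
      ∀ w ∈ G ⊓ Subgroup.normalizer (T : Set (Gl n K)), ∃ w' : Wey P,
        E.Uw b w' = (Uw G B T w).subgroupOf G := by
  have hTG : T ≤ G := hT.prop.1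
  obtain ⟨τ⟩ := hT.prop.2.exists_TD
  obtain ⟨D⟩ := exists_Pn τ hG hT
  obtain ⟨y, hy, rfl⟩ := D.exists_of_borel hG hT hB hTB
  obtain ⟨b, hb⟩ := D.exists_base' hy
  obtain ⟨t, x, φ, ht, hr, hv, hx, hφ⟩ := exists_data D hTG
  obtain ⟨m, F, hm, hF, hF'⟩ := exists_frobenius D hG hT hK
  have htT : ∀ s, (t s).1 ∈ T := fun s =>
    Subgroup.mem_subgroupOf.1 (hr ▸ MonoidHom.mem_range.2 ⟨s, rfl⟩)
  have hsurj : ∀ g : G, g.1 ∈ T → ∃ s, t s = g := fun g hg =>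
    MonoidHom.mem_range.1 (hr ▸ Subgroup.mem_subgroupOf.2 hg)
  have hxe : ∀ i c, x i c = ⟨D.x i c, D.x_mem i c⟩ := fun i c => Subtype.ext (hx i c)
  have hU : genU x {β | b.IsPos β} = (τ.U G y).subgroupOf G :=
    cred_gen D hG hT hx (sga_pos y) (fun _ h => h) hb
  refine ⟨D.ι, D.fin, τ.r, D.P, D.red, b, ⟨t, x, φ, F⟩, ⟨⟨m, hm, ht, ?_, ?_, ?_, ?_, ?_⟩,
    ⟨?_, ?_, ?_⟩, ?_, ?_, fun β γ c d _ h => cred_comm D hG hT hx β γ c d h, ?_, ?_, ?_, ?_⟩,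
    hr, ?_, ?_⟩
  · intro β c d
    refine Subtype.ext ?_
    simp only [Subgroup.coe_mul, hx]
    exact (D.rh β).add c d
  · intro β c d h
    have := congrArg Subtype.val h
    simp only [hx] at this
    exact (D.rh β).inj this
  · intro s β c
    refine Subtype.ext ?_
    simp only [Subgroup.coe_mul, Subgroup.coe_inv, hx]
    rw [← hv s (htT s)]
    exact (D.rh β).conj ⟨_, htT s⟩ c
  · intro β c
    simp only [hxe]
    exact hF β c _ _
  · intro s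
    simp only [map_pow]
    exact hF' _ (htT s)
  · exact fun β c => Subtype.ext (by simp only [hφ, hx]; exact D.φ_up β c)
  · exact fun β c => Subtype.ext (by simp only [hφ, hx]; exact D.φ_lo β c)
  · intro β a
    have e : (φ β (diM a)).1 = τ.co (D.P.coroot β) a := (hφ β _).trans (D.φ_di β a)
    obtain ⟨s, hs⟩ := hsurj (φ β (diM a)) (e ▸ τ.co_mem _ a)
    refine ⟨s, hs.symm, fun v => ?_⟩
    rw [← hv s (htT s), D.pair, ← τ.pair]
    exact congrArg _ (Subtype.ext ((congrArg Subtype.val hs).trans e))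
  · intro g hg
    change g ∈ t.range
    rw [hr, Subgroup.mem_subgroupOf, ← τ.cent_eq hG hT]
    refine τ.mem_GX_zero.2 ⟨g.2, fun s hs => ?_⟩
    obtain ⟨s', hs'⟩ := hsurj ⟨s, hTG hs⟩ hs
    exact congrArg Subtype.val (Subgroup.mem_centralizer_iff.1 hg ⟨s, hTG hs⟩ ⟨s', hs'⟩)
  · intro g hg
    change g ∈ Subgroup.normalizer (t.range : Set G) at hg
    rw [hr] at hg
    obtain ⟨a, a', w, ha, hw, hw'⟩ := cred_weyl D hG hT g.2
      (fun s hs => (Subgroup.mem_set_normalizer_iff.1 hg ⟨s, hTG hs⟩).1 hs)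
      (fun s hs => (Subgroup.mem_set_normalizer_iff''.1 hg ⟨s, hTG hs⟩).1 hs)
    refine ⟨w, fun s => ?_, fun β c => ?_⟩
    · obtain ⟨s', hs'⟩ := hsurj (g⁻¹ * t s * g) (ha.mem' _ (htT s))
      refine ⟨s', hs'.symm, fun v => ?_⟩
      rw [← hv s (htT s), ← hv s' (htT s'), ← hw, ← ha.chi]
      refine congrArg _ (Subtype.ext ?_)
      simp only [hs', Subgroup.coe_mul, Subgroup.coe_inv]
      group
    · have h1 := ha.conj_GX τ g.2 (sga_ray _) (((D.rh β).mem_iff _).2 ⟨c, rfl⟩)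
      have h2 : a '' ray (D.P.root β) ⊆ ray (D.P.root (w.perm β)) := by
        rintro _ ⟨z, ⟨i, j, hi, hj, e⟩, rfl⟩
        exact ⟨i, j, hi, hj, by rw [← hw', ← map_nsmul, ← map_nsmul, e]⟩
      obtain ⟨d, hd⟩ := ((D.rh (w.perm β)).mem_iff _).1 (τ.GX_mono le_rfl h2 h1)
      refine ⟨d, Subtype.ext ?_⟩
      simp only [Subgroup.coe_mul, Subgroup.coe_inv, hx]
      exact hd
  · intro l hl hl' u hu
    change u ∈ genU x _ at hu
    rw [hU, Subgroup.mem_subgroupOf] at hu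
    obtain ⟨c, hc⟩ := ((D.prod_U hG hT (sga_pos y) (fun _ h => h) l hl
      fun i => (hl' i).trans (hb i)).1 _).1 hu
    exact ⟨c, Subtype.ext (hc.trans (cred_prod D hx l c).symm)⟩
  · intro l hl hl' c d h
    refine (D.prod_U hG hT (sga_pos y) (fun _ h => h) l hl fun i => (hl' i).trans (hb i)).2 c d ?_
    rw [← cred_prod D hx, ← cred_prod D hx]
    exact congrArg Subtype.val h
  · change (t.range ⊔ genU x _) ⊓ genU x _ = ⊥
    have h1 : t.range ⊔ genU x {β | b.IsPos β} ≤ (τ.GX G {z | 0 ≤ z ⬝ᵥ y}).subgroupOf G := by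
      rw [hr, hU]
      exact sup_le (Subgroup.comap_mono (τ.le_GX (sga_nonneg y) (zero_dotProduct y).ge hTG))
        (Subgroup.comap_mono (τ.GX_mono le_rfl fun z (hz : 0 < z ⬝ᵥ y) => hz.le))
    have h2 : genU x {β | ¬ b.IsPos β} ≤ (τ.U G (-y)).subgroupOf G :=
      cred_gen_le fun i hi c => by
        rw [Subgroup.mem_subgroupOf, hx]
        refine D.x_mem_GX (sga_pos (-y)) ?_ c
        have h3 : ¬ 0 < D.P.root i ⬝ᵥ y := fun h => hi ((hb i).2 h)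
        have h4 := hy i
        change 0 < D.P.root i ⬝ᵥ (-y)
        rw [dotProduct_neg]
        omega
    refine eq_bot_iff.2 fun g hg => Subgroup.mem_bot.2 (Subtype.ext ?_)
    refine τ.GX_inf_eq_bot (sga_nonneg y) (sga_pos (-y)) ?_ (h1 hg.1) (h2 hg.2)
    refine disjoint_left.2 fun z (h3 : 0 ≤ z ⬝ᵥ y) (h4 : 0 < z ⬝ᵥ (-y)) => ?_
    rw [dotProduct_neg] at h4
    omega
  · change t.range ⊔ genU x univ = ⊤
    rw [eq_top_iff, ← Subgroup.subgroupOf_self G]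
    refine cred_le (D.le_of_gen hG hT (fun s hs => ?_) fun i c => ?_)
    · exact ⟨⟨s, hTG hs⟩, Subgroup.mem_sup_left (hsurj ⟨s, hTG hs⟩ hs), rfl⟩
    · exact ⟨x i c, Subgroup.mem_sup_right (cred_x (mem_univ i) c), hx i c⟩
  · rw [radU_eq hTG hG.1]
    exact hU
  · intro g hg
    obtain ⟨a, a', w, ha, -, hw'⟩ := cred_weyl D hG hT hg.1
      (fun s hs => (Subgroup.mem_set_normalizer_iff.1 hg.2 s).1 hs)
      (fun s hs => (Subgroup.mem_set_normalizer_iff''.1 hg.2 s).1 hs)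
    refine ⟨w, ?_⟩
    rw [← cred_Uw D hG hT hx hy ha hw']
    change genU x _ = genU x _
    simp only [hb]

end Pool.Agent.AG.Cat
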